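import Mathlib

set_option autoImplicit false

namespace Pool.Agent.Results.MP_2abcfb_lc.Exists

open MeasureTheory Set Metric Filter Topology

lemma key {M : Set ℝ} (hM : MeasurableSet M) : ∀ᵐ x : ℝ, (x ∈ M ↔ x ∈ ⋂ k : ℕ, ⋃ (c : ℝ) (r : ℝ)
    (_ : 0 < r ∧ r < 1 / (k + 1) ∧ ENNReal.ofReal r < volume (M ∩ closedBall c r)), ball c r) := by
  filter_upwards [Besicovitch.ae_tendsto_measure_inter_div_of_measurableSet volume hM] with x hx
  simp only [mem_iInter, mem_iUnion, Real.volume_closedBall] at hx ⊢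
  constructor
  · intro h k
    rw [indicator_of_mem h] at hx
    have h1 := hx.eventually (lt_mem_nhds (show (1 / 2 : ENNReal) < (1 : ℝ → ENNReal) x by simp))
    have h2 : ∀ᶠ r in 𝓝[>] (0 : ℝ), r ∈ Ioo (0 : ℝ) (1 / (k + 1)) := Ioo_mem_nhdsGT (by positivity)
    obtain ⟨r, hr1, hr2⟩ := (h1.and h2).exists
    refine ⟨x, r, ⟨hr2.1, hr2.2, ?_⟩, mem_ball_self hr2.1⟩
    have hp : ENNReal.ofReal (2 * r) ≠ 0 := by simpa using hr2.1
    rw [ENNReal.lt_div_iff_mul_lt (Or.inl hp) (Or.inl ENNReal.ofReal_ne_top),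
      ENNReal.ofReal_mul zero_le_two, ← mul_assoc] at hr1
    simpa [ENNReal.inv_mul_cancel] using hr1
  · intro h
    by_contra hn
    rw [indicator_of_notMem hn] at hx
    have h1 := hx.eventually (gt_mem_nhds (show (0 : ENNReal) < 1 / 4 by simp))
    obtain ⟨u, hu, hsub⟩ := mem_nhdsGT_iff_exists_Ioo_subset.1 h1
    obtain ⟨k, hk⟩ := exists_nat_one_div_lt (half_pos (show (0 : ℝ) < u from hu))
    obtain ⟨c, r, ⟨r0, r1, r2⟩, hc⟩ := h k
    have h3 : volume (M ∩ closedBall x (2 * r)) / ENNReal.ofReal (2 * (2 * r)) < 1 / 4 :=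
      hsub (show 2 * r ∈ Ioo 0 u from ⟨by linarith, by linarith⟩)
    have hp : ENNReal.ofReal (2 * (2 * r)) ≠ 0 := by simpa using r0
    rw [ENNReal.div_lt_iff (Or.inl hp) (Or.inl ENNReal.ofReal_ne_top),
      show 2 * (2 * r) = 4 * r by ring, ENNReal.ofReal_mul (by norm_num), ← mul_assoc] at h3
    have h4 : volume (M ∩ closedBall c r) ≤ volume (M ∩ closedBall x (2 * r)) :=
      measure_mono (inter_subset_inter_right _ (closedBall_subset_closedBall' (by
        have := mem_ball'.1 hc; linarith)))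
    have h5 : volume (M ∩ closedBall x (2 * r)) < ENNReal.ofReal r := by
      simpa [ENNReal.inv_mul_cancel] using h3
    exact absurd (r2.trans_le h4) h5.not_gt

theorem result : ∃ ψ : {M : Set ℝ // NullMeasurableSet M volume} → Set ℝ,
    (∀ M, IsGδ (ψ M)) ∧ (∀ M M', M.1 ⊆ M'.1 → ψ M ⊆ ψ M') ∧
    (∀ M, volume (symmDiff M.1 (ψ M)) = 0) ∧
    (∀ M M', volume (symmDiff M.1 M'.1) = 0 → ψ M = ψ M') := by
  let ψ : Set ℝ → Set ℝ := fun M => ⋂ k : ℕ, ⋃ (c : ℝ) (r : ℝ)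
    (_ : 0 < r ∧ r < 1 / (k + 1) ∧ ENNReal.ofReal r < volume (M ∩ closedBall c r)), ball c r
  have hae : ∀ M M' : Set ℝ, M =ᵐ[volume] M' → ψ M = ψ M' := by
    intro M M' h
    have : ∀ c r, volume (M ∩ closedBall c r) = volume (M' ∩ closedBall c r) := fun c r =>
      measure_congr (h.inter (ae_eq_refl _))
    simp only [ψ, this]
  refine ⟨fun M => ψ M.1, fun M => ?_, fun M M' h => ?_, fun M => ?_, fun M M' h => ?_⟩
  · exact IsGδ.iInter_of_isOpen fun k => isOpen_iUnion fun c => isOpen_iUnion fun r =>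
      isOpen_iUnion fun _ => isOpen_ball
  · refine iInter_mono fun k => iUnion_mono fun c => iUnion_mono fun r => iUnion_mono' fun hr =>
      ⟨⟨hr.1, hr.2.1, hr.2.2.trans_le (measure_mono (inter_subset_inter_left _ h))⟩, subset_rfl⟩
  · obtain ⟨N, hN, e⟩ := M.2
    have e' : M.1 =ᵐ[volume] N := e
    rw [measure_symmDiff_eq_zero_iff]
    show M.1 =ᵐ[volume] ψ M.1
    rw [hae _ _ e']
    exact e'.trans (eventuallyEq_set.2 (key hN))
  · exact hae _ _ (measure_symmDiff_eq_zero_iff.1 h)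

end Pool.Agent.Results.MP_2abcfb_lc.Exists
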